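import Pool.Agent.N242.NT.Stm

/-! Project NT (helper242), part MAI (helper707): a locally null tiling by balls does not exist. -/

set_option autoImplicit false

open Metric Set Filter Topology

namespace Pool.Agent.N707.NT

universe u

open Pool.Agent.N242.NT

theorem t_MAI (h1 : S_FLA.{u}) (h2 : S_EXT.{u}) (h3 : S_SEP.{u}) (h4 : S_BAI.{u}) :
    S_MAI.{u} := by
  intro X _ _ _ B hK hinf hT hL
  classical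
  -- singular points in every ball, with prescribed values of finitely many functionals
  have sng : ∀ b ∈ B, ∀ F : Finset (X →L[ℝ] ℝ), ∃ z, Sing B z ∧ ‖z - b.1‖ ≤ b.2 ∧
      ∀ f ∈ F, f z = f b.1 := by
    intro b hb F
    obtain ⟨z, hz1, hz2, hz3⟩ := h2 X hK hinf b.1 b.2 (hT.pos b hb) F
    refine ⟨z, by_contra fun hs => ?_, hz1, hz2⟩
    obtain ⟨G, ε, hε, hG⟩ := h1 X B hT b hb z hz1 hs
    obtain ⟨v, hv1, hv2, hv3⟩ := hz3 G ε hε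
    exact hv3 (hG v hv1 hv2)
  obtain ⟨b₀, hb₀, -⟩ := hT.cov 0
  obtain ⟨z₀, hz₀, -, -⟩ := sng b₀ hb₀ ∅
  obtain ⟨δ, hδ, q, hq, ρ, hρ, hball⟩ := h4 X B hT hL ⟨z₀, hz₀⟩
  obtain ⟨ρ₁, hρ₁, hρ₁ρ, hfin1⟩ : ∃ ρ₁ > 0, ρ₁ ≤ ρ ∧
      {b | b ∈ B ∧ δ ≤ b.2 ∧ ‖q - b.1‖ < b.2 + ρ₁}.Finite := by
    obtain ⟨r, hr, hfin⟩ := hL q δ hδ
    refine ⟨min r ρ, lt_min hr hρ, min_le_right _ _, hfin.subset ?_⟩
    rintro b ⟨hb1, hb2, hb3⟩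
    exact ⟨hb1, hb2, hb3.trans_le (by have := min_le_left r ρ; linarith)⟩
  obtain ⟨ρ₂, hρ₂, hρ₂ρ, hfin2⟩ : ∃ ρ₂ > 0, ρ₂ ≤ ρ₁ / 8 ∧
      {b | b ∈ B ∧ min δ (ρ₁ / 8) ≤ b.2 ∧ ‖q - b.1‖ < b.2 + ρ₂}.Finite := by
    obtain ⟨r, hr, hfin⟩ := hL q (min δ (ρ₁ / 8)) (by positivity)
    refine ⟨min r (ρ₁ / 8), by positivity, min_le_right _ _, hfin.subset ?_⟩
    rintro b ⟨hb1, hb2, hb3⟩
    exact ⟨hb1, hb2, hb3.trans_le (by have := min_le_left r (ρ₁ / 8); linarith)⟩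
  -- a small ball close to `q`
  obtain ⟨b, ⟨hb, hqb⟩, hbn⟩ := ((hq ρ₂ hρ₂).diff hfin2).nonempty
  have hb2 : b.2 < min δ (ρ₁ / 8) := by
    by_contra hle
    exact hbn ⟨hb, not_lt.1 hle, hqb⟩
  have hbδ : b.2 < δ := hb2.trans_le (min_le_left _ _)
  have hbρ : b.2 < ρ₁ / 8 := hb2.trans_le (min_le_right _ _)
  have hsep : ∀ b', b' ∈ {b' | b' ∈ B ∧ δ ≤ b'.2 ∧ ‖q - b'.1‖ < b'.2 + ρ₁} →
      ∃ (f : X →L[ℝ] ℝ) (β : ℝ), (∀ x, ‖x - b'.1‖ ≤ b'.2 → f x ≤ β) ∧ β < f b.1 := by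
    rintro b' ⟨hb'1, hb'2, -⟩
    have hne : b' ≠ b := by
      rintro rfl
      linarith
    obtain ⟨f, β, hf1, -, -, hf2⟩ := h3 X B hT b' hb'1 b hb hne
    exact ⟨f, β, hf1, hf2⟩
  choose! f β hf1 hf2 using hsep
  obtain ⟨z, hz1, hz2, hz3⟩ := sng b hb (hfin1.toFinset.image f)
  have hzq : ‖z - q‖ < ρ₁ := by
    have h5 : ‖z - q‖ ≤ ‖z - b.1‖ + ‖b.1 - q‖ := norm_sub_le_norm_sub_add_norm_sub _ _ _
    rw [norm_sub_rev b.1 q] at h5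
    linarith
  obtain ⟨b', hb'1, hb'2, hb'3⟩ := hball z hz1 (hzq.trans_le hρ₁ρ)
  have hb'N : b' ∈ {b' | b' ∈ B ∧ δ ≤ b'.2 ∧ ‖q - b'.1‖ < b'.2 + ρ₁} := by
    refine ⟨hb'1, hb'2, ?_⟩
    have h5 : ‖q - b'.1‖ ≤ ‖q - z‖ + ‖z - b'.1‖ := norm_sub_le_norm_sub_add_norm_sub _ _ _
    rw [norm_sub_rev q z] at h5
    linarith
  have h6 := hf1 b' hb'N z hb'3
  have h7 := hf2 b' hb'N
  rw [hz3 (f b') (Finset.mem_image_of_mem f (hfin1.mem_toFinset.2 hb'N))] at h6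
  exact absurd h7 (not_lt.2 h6)

end Pool.Agent.N707.NT
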